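import Pool.Agent.helper75.WB.SpecI

/-!
# Row wb:I.ICMP: completion of a primitive vector
-/

set_option autoImplicit false

namespace Pool.Agent.WB

theorem ICMP : ICMP_stmt := by
  intro x x' Δ hx hx0
  obtain ⟨a, b, hab⟩ := hx
  have hv1 : (Δ : ℤ) * (-b) + (-((Δ : ℤ) * (-b) / x)) * x = (Δ : ℤ) * (-b) % x := by
    have h := Int.emod_add_mul_ediv ((Δ : ℤ) * (-b)) x
    linarith
  have habs : |(Δ : ℤ) * (-b) + (-((Δ : ℤ) * (-b) / x)) * x| ≤ |x| := by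
    rw [hv1, abs_of_nonneg (Int.emod_nonneg _ hx0)]
    exact (Int.emod_lt_abs _ hx0).le
  have hdet : x * ((Δ : ℤ) * a + (-((Δ : ℤ) * (-b) / x)) * x') -
      x' * ((Δ : ℤ) * (-b) + (-((Δ : ℤ) * (-b) / x)) * x) = Δ := by
    have h1 : x * ((Δ : ℤ) * a + (-((Δ : ℤ) * (-b) / x)) * x') -
        x' * ((Δ : ℤ) * (-b) + (-((Δ : ℤ) * (-b) / x)) * x) = (Δ : ℤ) * (a * x + b * x') := by
      ring
    rw [h1, hab, mul_one]
  refine ⟨_, _, -b, a, -((Δ : ℤ) * (-b) / x), rfl, rfl, hdet, habs, ?_⟩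
  rw [← abs_mul]
  have h2 : x * ((Δ : ℤ) * a + (-((Δ : ℤ) * (-b) / x)) * x') =
      (Δ : ℤ) + x' * ((Δ : ℤ) * (-b) + (-((Δ : ℤ) * (-b) / x)) * x) := by
    linarith
  rw [h2]
  refine (abs_add_le _ _).trans ?_
  rw [abs_mul, Nat.abs_cast]
  have h3 := mul_le_mul_of_nonneg_left habs (abs_nonneg x')
  linarith

end Pool.Agent.WB
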